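import Mathlib

/-!
# Spline modules of planar complexes can have regularity larger than `2 (r + 1)`

The complex is an annulus of ten triangles, all of whose interior edges lie on four lines, three
of them through the origin of the plane; `r = 2`.
-/

set_option autoImplicit false

namespace Pool.Agent.Results.MP_75549a_ag.SplineRegularity

section Complex

open Finset

/-- A finite, pure, two-dimensional, hereditary simplicial complex in the plane: every face lies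
in a triangle, and any two triangles which contain `γ` are joined by a chain of triangles
containing `γ` in which consecutive ones share an edge containing `γ`. (`γ` may be a face or
empty, so the complex is also strongly connected.) -/
structure IsPlanarComplex (Δ : Geometry.SimplicialComplex ℝ (ℝ × ℝ)) : Prop where
  finite : Δ.faces.Finite
  pure : ∀ s ∈ Δ.faces, ∃ t ∈ Δ.faces, s ⊆ t ∧ t.card = 3
  hereditary : ∀ (γ : Finset (ℝ × ℝ)) (σ τ : Finset (ℝ × ℝ)),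
    σ ∈ Δ.faces → σ.card = 3 → γ ⊆ σ → τ ∈ Δ.faces → τ.card = 3 → γ ⊆ τ →
    Relation.ReflTransGen (fun σ' τ' : Finset (ℝ × ℝ) =>
      (σ' ∈ Δ.faces ∧ σ'.card = 3) ∧ (τ' ∈ Δ.faces ∧ τ'.card = 3) ∧
      (σ' ∩ τ').card = 2 ∧ γ ⊆ σ' ∩ τ') σ τ

lemma convexHull_filter {s : Finset (ℝ × ℝ)} (h : ℝ × ℝ → ℝ) (α β c : ℝ)
    (hlin : ∀ y, h y = α * y.1 + β * y.2 + c) (hpos : ∀ y ∈ s, 0 ≤ h y) {x : ℝ × ℝ}
    (hx : x ∈ convexHull ℝ (s : Set (ℝ × ℝ))) (hx0 : h x ≤ 0) :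
    x ∈ convexHull ℝ ((s.filter (fun y => h y = 0) : Finset (ℝ × ℝ)) : Set (ℝ × ℝ)) := by
  classical
  rw [Finset.mem_convexHull'] at hx ⊢
  obtain ⟨w, hw0, hw1, hwx⟩ := hx
  have hx1 : x.1 = ∑ y ∈ s, w y * y.1 := by
    rw [← hwx, Prod.fst_sum]; simp
  have hx2 : x.2 = ∑ y ∈ s, w y * y.2 := by
    rw [← hwx, Prod.snd_sum]; simp
  have hsum : h x = ∑ y ∈ s, w y * h y := by
    have : ∑ y ∈ s, w y * h y = ∑ y ∈ s, (α * (w y * y.1) + β * (w y * y.2) + c * w y) := by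
      refine Finset.sum_congr rfl (fun y _ => ?_)
      rw [hlin y]; ring
    rw [this, Finset.sum_add_distrib, Finset.sum_add_distrib, ← Finset.mul_sum, ← Finset.mul_sum,
      ← Finset.mul_sum, hw1, ← hx1, ← hx2, hlin x]
    ring
  have hterm : ∀ y ∈ s, w y * h y = 0 := by
    have hnn : ∀ y ∈ s, 0 ≤ w y * h y := fun y hy => mul_nonneg (hw0 y hy) (hpos y hy)
    have : ∑ y ∈ s, w y * h y = 0 :=
      le_antisymm (by rw [← hsum]; exact hx0) (Finset.sum_nonneg hnn)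
    exact (Finset.sum_eq_zero_iff_of_nonneg hnn).1 this
  have hw' : ∀ y ∈ s, h y ≠ 0 → w y = 0 := fun y hy hne =>
    (mul_eq_zero.1 (hterm y hy)).resolve_right hne
  refine ⟨w, fun y hy => hw0 y (Finset.mem_filter.1 hy).1, ?_, ?_⟩
  · rw [← hw1, Finset.sum_filter]
    refine Finset.sum_congr rfl (fun y hy => ?_)
    by_cases hne : h y = 0
    · rw [if_pos hne]
    · rw [if_neg hne, hw' y hy hne]
  · rw [← hwx, Finset.sum_filter]
    refine Finset.sum_congr rfl (fun y hy => ?_)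
    by_cases hne : h y = 0
    · rw [if_pos hne]
    · rw [if_neg hne, hw' y hy hne, zero_smul]

/-- The coordinates of the ten vertices. -/
def V : Fin 10 → ℤ × ℤ :=
  ![(-3, 3), (0, 2), (3, 3), (0, 1), (0, 0), (0, 3), (-6, 6), (-6, 3), (6, 6), (6, 3)]

/-- The ten triangles, in cyclic order around the hole. -/
def T : Fin 10 → Finset (Fin 10) :=
  ![{5, 0, 1}, {5, 1, 2}, {2, 5, 8}, {2, 8, 9}, {2, 9, 4}, {4, 2, 3}, {4, 3, 0}, {0, 4, 7},
    {0, 7, 6}, {0, 6, 5}]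

/-- Separating lines: `(a, b, c)` stands for the function `a x + b y + c`. -/
def sep : Fin 10 → Fin 10 → ℤ × ℤ × ℤ :=
  ![![(0, 0, 0), (-1, 0, 0), (-1, 0, 0), (-1, 0, 0), (-1, 1, 0), (-1, 1, -1), (1, 2, -3), (1, 1, 0), (1, 0, 3), (0, -1, 3)],
    ![(1, 0, 0), (0, 0, 0), (0, -1, 3), (-1, 0, 3), (-1, 1, 0), (-1, 2, -3), (1, 1, -1), (1, 1, 0), (1, 0, 0), (1, 0, 0)],
    ![(1, 0, 0), (0, 1, -3), (0, 0, 0), (-1, 1, 0), (-1, 2, -3), (0, 1, -3), (1, 1, -1), (1, 1, 0), (1, 0, 0), (1, 0, 0)],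
    ![(1, 0, 0), (1, 0, -3), (1, -1, 0), (0, 0, 0), (0, 1, -3), (0, 1, -3), (1, 0, 0), (1, 0, 0), (1, 0, 0), (1, 0, 0)],
    ![(1, -1, 0), (1, -1, 0), (1, -2, 3), (0, -1, 3), (0, 0, 0), (1, -1, 0), (1, 0, 0), (1, 0, 0), (1, 0, 0), (1, -1, 0)],
    ![(1, -1, 1), (1, -2, 3), (0, -1, 3), (-1, 0, 3), (-1, 1, 0), (0, 0, 0), (1, 0, 0), (1, 0, 0), (1, 0, 0), (1, -1, 1)],
    ![(-1, -2, 3), (-1, -1, 1), (-1, -1, 1), (-1, 0, 0), (-1, 0, 0), (-1, 0, 0), (0, 0, 0), (1, 1, 0), (0, -1, 3), (0, -1, 3)],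
    ![(-1, -1, 0), (-1, -1, 0), (-1, -1, 0), (-1, 0, 0), (-1, 0, 0), (-1, 0, 0), (-1, -1, 0), (0, 0, 0), (0, -1, 3), (-1, -2, 3)],
    ![(-1, 0, -3), (-1, 0, 0), (-1, 0, 0), (-1, 0, 0), (-1, 0, 0), (-1, 0, 0), (-1, 0, -3), (0, 1, -3), (0, 0, 0), (-1, -1, 0)],
    ![(0, 1, -3), (-1, 0, 0), (-1, 0, 0), (-1, 0, 0), (-1, 1, 0), (-1, 1, -1), (0, 1, -3), (1, 2, -3), (1, 1, 0), (0, 0, 0)]]

/-- The value of an affine function at a vertex. -/
def ev (f : ℤ × ℤ × ℤ) (v : Fin 10) : ℤ := f.1 * (V v).1 + f.2.1 * (V v).2 + f.2.2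

lemma sep_pos : ∀ i j v, v ∈ T i → 0 ≤ ev (sep i j) v := by decide +kernel

lemma sep_neg : ∀ i j v, v ∈ T j → ev (sep i j) v ≤ 0 := by decide +kernel

lemma sep_zero : ∀ i j, (∀ v, v ∈ T i → ev (sep i j) v = 0 → v ∈ T j) ∨
    (∀ v, v ∈ T j → ev (sep i j) v = 0 → v ∈ T i) := by decide +kernel

lemma V_inj : ∀ u v, V u = V v → u = v := by decide +kernel

lemma T_card : ∀ i, (T i).card = 3 := by decide +kernel

lemma T_chain : ∀ i j : Fin 10,
    (∃ k : Fin 10, i + k = j ∧ ∀ m : Fin 10, m < k → T i ∩ T j ⊆ T (i + m) ∩ T (i + m + 1)) ∨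
    (∃ k : Fin 10, j + k = i ∧ ∀ m : Fin 10, m < k → T i ∩ T j ⊆ T (j + m) ∩ T (j + m + 1)) := by
  decide +kernel

lemma T_adj : ∀ i : Fin 10, (T i ∩ T (i + 1)).card = 2 := by decide +kernel

lemma T_adj' : ∀ i j : Fin 10, (T i ∩ T j).card = 2 → j = i + 1 ∨ i = j + 1 := by decide +kernel

/-- The common edge of the triangles `i` and `i + 1`. -/
def E2 : Fin 10 → Fin 10 × Fin 10 :=
  ![(5, 1), (5, 2), (2, 8), (2, 9), (4, 2), (4, 3), (4, 0), (0, 7), (0, 6), (0, 5)]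

lemma T_inter : ∀ i, T i ∩ T (i + 1) = {(E2 i).1, (E2 i).2} := by decide +kernel

lemma T_inj : ∀ i j, T i = T j → i = j := by decide +kernel

/-- The number of the line on which the edge `i` lies. -/
def ln : Fin 10 → Fin 4 := ![1, 3, 2, 3, 2, 1, 0, 3, 0, 3]

/-- The linear forms, up to a scalar. -/
def ell : Fin 4 → ℤ × ℤ × ℤ := ![(1, 1, 0), (1, 0, 0), (1, -1, 0), (0, 1, -3)]

/-- The scalars. -/
def kk : Fin 10 → ℤ := ![1, 3, -3, 3, -3, -1, -3, -3, -3, 3]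

lemma kk_ne : ∀ i, kk i ≠ 0 := by decide +kernel

lemma line_coeff : ∀ i,
    (V (E2 i).1).2 - (V (E2 i).2).2 = kk i * (ell (ln i)).1 ∧
    (V (E2 i).2).1 - (V (E2 i).1).1 = kk i * (ell (ln i)).2.1 ∧
    (V (E2 i).1).1 * (V (E2 i).2).2 - (V (E2 i).2).1 * (V (E2 i).1).2 =
      kk i * (ell (ln i)).2.2 := by decide +kernel

/-- The vertices as points of the plane. -/
noncomputable def pt : Fin 10 ↪ ℝ × ℝ where
  toFun v := (((V v).1 : ℝ), ((V v).2 : ℝ))
  inj' := by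
    intro u v h
    apply V_inj
    have h1 : ((V u).1 : ℝ) = ((V v).1 : ℝ) := congrArg Prod.fst h
    have h2 : ((V u).2 : ℝ) = ((V v).2 : ℝ) := congrArg Prod.snd h
    exact Prod.ext (by exact_mod_cast h1) (by exact_mod_cast h2)

lemma pt_fst (v : Fin 10) : (pt v).1 = ((V v).1 : ℝ) := rfl
lemma pt_snd (v : Fin 10) : (pt v).2 = ((V v).2 : ℝ) := rfl

/-- The affine function on the plane. -/
noncomputable def hf (f : ℤ × ℤ × ℤ) (y : ℝ × ℝ) : ℝ :=
  (f.1 : ℝ) * y.1 + (f.2.1 : ℝ) * y.2 + (f.2.2 : ℝ)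

lemma hf_pt (f : ℤ × ℤ × ℤ) (v : Fin 10) : hf f (pt v) = (ev f v : ℝ) := by
  simp [hf, ev, pt_fst, pt_snd]

/-- Three points with nonzero determinant are affinely independent. -/
lemma indep_three (a b c : ℝ × ℝ)
    (h : (b.1 - a.1) * (c.2 - a.2) - (b.2 - a.2) * (c.1 - a.1) ≠ 0) :
    AffineIndependent ℝ ![a, b, c] := by
  rw [affineIndependent_iff_eq_of_fintype_affineCombination_eq]
  intro w1 w2 hw1 hw2 heq
  rw [Finset.affineCombination_eq_linear_combination _ _ _ hw1,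
    Finset.affineCombination_eq_linear_combination _ _ _ hw2] at heq
  rw [Fin.sum_univ_three] at hw1 hw2
  rw [Fin.sum_univ_three, Fin.sum_univ_three] at heq
  have h1 := congrArg Prod.fst heq
  have h2 := congrArg Prod.snd heq
  simp at h1 h2
  have e0 : w1 0 - w2 0 = -(w1 1 - w2 1) - (w1 2 - w2 2) := by linarith
  set u := w1 1 - w2 1 with hu
  set v := w1 2 - w2 2 with hv
  have k1 : u * (b.1 - a.1) + v * (c.1 - a.1) = 0 := by
    rw [hu, hv]; linear_combination h1 - a.1 * hw1 + a.1 * hw2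
  have k2 : u * (b.2 - a.2) + v * (c.2 - a.2) = 0 := by
    rw [hu, hv]; linear_combination h2 - a.2 * hw1 + a.2 * hw2
  have hu0 : u = 0 := by
    have : u * ((b.1 - a.1) * (c.2 - a.2) - (b.2 - a.2) * (c.1 - a.1)) = 0 := by
      linear_combination (c.2 - a.2) * k1 - (c.1 - a.1) * k2
    exact (mul_eq_zero.1 this).resolve_right h
  have hv0 : v = 0 := by
    have : v * ((b.1 - a.1) * (c.2 - a.2) - (b.2 - a.2) * (c.1 - a.1)) = 0 := by
      linear_combination (b.1 - a.1) * k2 - (b.2 - a.2) * k1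
    exact (mul_eq_zero.1 this).resolve_right h
  funext i
  fin_cases i
  · simp; linarith
  · simp; linarith
  · simp; linarith

/-- The vertices of the triangles in order. -/
def T3 : Fin 10 → Fin 3 → Fin 10 :=
  ![![5, 0, 1], ![5, 1, 2], ![2, 5, 8], ![2, 8, 9], ![2, 9, 4], ![4, 2, 3], ![4, 3, 0], ![0, 4, 7],
    ![0, 7, 6], ![0, 6, 5]]

lemma T3_det : ∀ i, ((V (T3 i 1)).1 - (V (T3 i 0)).1) * ((V (T3 i 2)).2 - (V (T3 i 0)).2) -
    ((V (T3 i 1)).2 - (V (T3 i 0)).2) * ((V (T3 i 2)).1 - (V (T3 i 0)).1) ≠ 0 := by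
  decide +kernel

lemma T3_mem : ∀ i v, v ∈ T i ↔ v = T3 i 0 ∨ v = T3 i 1 ∨ v = T3 i 2 := by decide +kernel

lemma T_indep (i : Fin 10) :
    AffineIndependent ℝ ((↑) : ((T i).map pt : Finset (ℝ × ℝ)) → ℝ × ℝ) := by
  have h := indep_three (pt (T3 i 0)) (pt (T3 i 1)) (pt (T3 i 2)) (by
    simp only [pt_fst, pt_snd]
    exact_mod_cast T3_det i)
  have h2 := h.range
  have h3 : (Set.range ![pt (T3 i 0), pt (T3 i 1), pt (T3 i 2)]) =
      (((T i).map pt : Finset (ℝ × ℝ)) : Set (ℝ × ℝ)) := by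
    ext x
    simp only [Set.mem_range, Finset.coe_map, Set.mem_image, Finset.mem_coe, T3_mem]
    constructor
    · rintro ⟨k, rfl⟩
      fin_cases k
      · exact ⟨_, Or.inl rfl, rfl⟩
      · exact ⟨_, Or.inr (Or.inl rfl), rfl⟩
      · exact ⟨_, Or.inr (Or.inr rfl), rfl⟩
    · rintro ⟨v, (rfl | rfl | rfl), rfl⟩
      · exact ⟨0, rfl⟩
      · exact ⟨1, rfl⟩
      · exact ⟨2, rfl⟩
  rw [h3] at h2
  exact h2

lemma hull_inter (i j : Fin 10) (A B : Finset (Fin 10)) (hA : A ⊆ T i) (hB : B ⊆ T j)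
    (x : ℝ × ℝ) (hxA : x ∈ convexHull ℝ ((A.map pt : Finset (ℝ × ℝ)) : Set (ℝ × ℝ)))
    (hxB : x ∈ convexHull ℝ ((B.map pt : Finset (ℝ × ℝ)) : Set (ℝ × ℝ))) :
    x ∈ convexHull ℝ (((A ∩ B).map pt : Finset (ℝ × ℝ)) : Set (ℝ × ℝ)) := by
  classical
  have hmono : ∀ {P Q : Finset (Fin 10)}, P ⊆ Q →
      convexHull ℝ ((P.map pt : Finset (ℝ × ℝ)) : Set (ℝ × ℝ)) ⊆
      convexHull ℝ ((Q.map pt : Finset (ℝ × ℝ)) : Set (ℝ × ℝ)) := fun h =>
    convexHull_mono (Finset.coe_subset.2 (Finset.map_subset_map.2 h))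
  -- values of the separating function
  have hle : ∀ (f : ℤ × ℤ × ℤ) (P : Finset (Fin 10)), (∀ v ∈ P, ev f v ≤ 0) →
      ∀ y ∈ convexHull ℝ ((P.map pt : Finset (ℝ × ℝ)) : Set (ℝ × ℝ)), hf f y ≤ 0 := by
    intro f P hP y hy
    have hconv : Convex ℝ {y : ℝ × ℝ | hf f y ≤ 0} := by
      intro a ha b hb s t hs ht hst
      change hf f a ≤ 0 at ha
      change hf f b ≤ 0 at hb
      change hf f (s • a + t • b) ≤ 0
      have e : hf f (s • a + t • b) = s * hf f a + t * hf f b := by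
        simp only [hf, Prod.fst_add, Prod.smul_fst, Prod.snd_add, Prod.smul_snd, smul_eq_mul]
        linear_combination (-(f.2.2 : ℝ)) * hst
      rw [e]
      nlinarith [mul_nonneg hs (sub_nonneg.2 ha), mul_nonneg ht (sub_nonneg.2 hb)]
    refine convexHull_min ?_ hconv hy
    intro z hz
    simp only [Finset.coe_map, Set.mem_image, Finset.mem_coe] at hz
    obtain ⟨v, hv, rfl⟩ := hz
    change hf f (pt v) ≤ 0
    rw [hf_pt]
    exact_mod_cast hP v hv
  have hfilt : ∀ (f : ℤ × ℤ × ℤ) (P : Finset (Fin 10)), (∀ v ∈ P, 0 ≤ ev f v) →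
      ∀ y ∈ convexHull ℝ ((P.map pt : Finset (ℝ × ℝ)) : Set (ℝ × ℝ)), hf f y ≤ 0 →
      y ∈ convexHull ℝ (((P.filter (fun v => ev f v = 0)).map pt : Finset (ℝ × ℝ)) :
        Set (ℝ × ℝ)) := by
    intro f P hP y hy hy0
    have h1 := convexHull_filter (hf f) (f.1 : ℝ) (f.2.1 : ℝ) (f.2.2 : ℝ) (fun y => rfl)
      (s := P.map pt) (by
        intro z hz
        obtain ⟨v, hv, rfl⟩ := Finset.mem_map.1 hz
        rw [hf_pt]
        exact_mod_cast hP v hv) hy hy0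
    refine convexHull_mono ?_ h1
    intro z hz
    rw [Finset.mem_coe, Finset.mem_filter, Finset.mem_map] at hz
    obtain ⟨⟨v, hv, rfl⟩, hz0⟩ := hz
    simp only [Finset.coe_map, Set.mem_image, Finset.mem_coe]
    refine ⟨v, Finset.mem_filter.2 ⟨hv, ?_⟩, rfl⟩
    rw [hf_pt] at hz0
    exact_mod_cast hz0
  have hneg : ∀ (f : ℤ × ℤ × ℤ) (y : ℝ × ℝ), hf (-f.1, -f.2.1, -f.2.2) y = - hf f y := by
    intro f y
    simp only [hf]
    push_cast
    ring
  have hneg' : ∀ (f : ℤ × ℤ × ℤ) (v : Fin 10), ev (-f.1, -f.2.1, -f.2.2) v = - ev f v := by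
    intro f v
    simp only [ev]
    ring
  set f := sep i j with hfdef
  have hx1 : hf f x ≤ 0 := hle f B (fun v hv => sep_neg i j v (hB hv)) x hxB
  have hx2 : 0 ≤ hf f x := by
    have := hle (-f.1, -f.2.1, -f.2.2) A (fun v hv => by
      rw [hneg']
      have : 0 ≤ ev f v := sep_pos i j v (hA hv)
      omega) x hxA
    rw [hneg] at this
    linarith
  have hA0 := hfilt f A (fun v hv => sep_pos i j v (hA hv)) x hxA hx1
  have hB0 := hfilt (-f.1, -f.2.1, -f.2.2) B (fun v hv => by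
      rw [hneg']
      have : ev f v ≤ 0 := sep_neg i j v (hB hv)
      omega) x hxB (by rw [hneg]; linarith)
  set A0 := A.filter (fun v => ev f v = 0) with hA0def
  set B0 := B.filter (fun v => ev (-f.1, -f.2.1, -f.2.2) v = 0) with hB0def
  have hA0A : A0 ⊆ A := Finset.filter_subset _ _
  have hB0B : B0 ⊆ B := Finset.filter_subset _ _
  have key : ∃ l, A0 ⊆ T l ∧ B0 ⊆ T l := by
    rcases sep_zero i j with h | h
    · refine ⟨j, fun v hv => ?_, hB0B.trans hB⟩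
      rw [hA0def, Finset.mem_filter] at hv
      exact h v (hA hv.1) hv.2
    · refine ⟨i, hA0A.trans hA, fun v hv => ?_⟩
      rw [hB0def, Finset.mem_filter] at hv
      refine h v (hB hv.1) ?_
      have := hv.2
      rw [hneg'] at this
      have h2 : ev f v = 0 := by omega
      exact h2
  obtain ⟨l, hl1, hl2⟩ := key
  have h1 := (T_indep l).convexHull_inter (Finset.map_subset_map.2 hl1)
    (Finset.map_subset_map.2 hl2)
  have h2 : x ∈ convexHull ℝ (((A0.map pt : Finset (ℝ × ℝ)) : Set (ℝ × ℝ)) ∩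
      ((B0.map pt : Finset (ℝ × ℝ)) : Set (ℝ × ℝ))) := by
    rw [h1]
    exact ⟨hA0, hB0⟩
  refine convexHull_mono ?_ h2
  rw [← Finset.coe_inter, ← Finset.map_inter]
  exact Finset.coe_subset.2 (Finset.map_subset_map.2 (Finset.inter_subset_inter hA0A hB0B))

/-- The complex: an annulus made of ten triangles. -/
noncomputable def Δ : Geometry.SimplicialComplex ℝ (ℝ × ℝ) :=
  Geometry.SimplicialComplex.ofErase {s | ∃ i, s ⊆ (T i).map pt}
    (by
      rintro s ⟨i, hi⟩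
      exact (T_indep i).mono (Finset.coe_subset.2 hi))
    (by
      intro s t hst hs
      obtain ⟨i, hi⟩ := hs
      exact ⟨i, hst.trans hi⟩)
    (by
      rintro s ⟨i, hi⟩ t ⟨j, hj⟩ x ⟨hxs, hxt⟩
      obtain ⟨A, hA, rfl⟩ := Finset.subset_map_iff.1 hi
      obtain ⟨B, hB, rfl⟩ := Finset.subset_map_iff.1 hj
      have := hull_inter i j A B hA hB x hxs hxt
      rw [Finset.map_inter, Finset.coe_inter] at this
      exact this)

lemma mem_faces (s : Finset (ℝ × ℝ)) : s ∈ Δ.faces ↔ s ≠ ∅ ∧ ∃ i, s ⊆ (T i).map pt := by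
  exact and_comm

lemma ofNat_succ (n : ℕ) : Fin.ofNat 10 (n + 1) = Fin.ofNat 10 n + 1 := by
  apply Fin.ext
  simp [Fin.ofNat, Fin.val_add]

lemma ofNat_val (k : Fin 10) : Fin.ofNat 10 k.val = k := by
  apply Fin.ext
  simp [Fin.ofNat, Nat.mod_eq_of_lt k.isLt]

attribute [irreducible] T V sep

lemma mem_tri (s : Finset (ℝ × ℝ)) :
    (s ∈ Δ.faces ∧ s.card = 3) ↔ ∃ i, s = (T i).map pt := by
  rw [mem_faces]
  constructor
  · rintro ⟨⟨_, i, hi⟩, hc⟩
    refine ⟨i, Finset.eq_of_subset_of_card_le hi ?_⟩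
    rw [Finset.card_map, T_card, hc]
  · rintro ⟨i, rfl⟩
    refine ⟨⟨?_, i, subset_rfl⟩, by rw [Finset.card_map, T_card]⟩
    intro h
    have := congrArg Finset.card h
    rw [Finset.card_map, T_card, Finset.card_empty] at this
    omega

lemma planar : IsPlanarComplex Δ where
  finite := by
    have h : Δ.faces ⊆ ((Finset.univ.biUnion (fun i => ((T i).map pt).powerset) :
        Finset (Finset (ℝ × ℝ))) : Set (Finset (ℝ × ℝ))) := by
      intro s hs
      obtain ⟨_, i, hi⟩ := (mem_faces s).1 hs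
      simp only [Finset.coe_biUnion, Set.mem_iUnion]
      exact ⟨i, Finset.mem_coe.2 (Finset.mem_univ i), Finset.mem_coe.2 (Finset.mem_powerset.2 hi)⟩
    exact (Finset.finite_toSet _).subset h
  pure s hs := by
    obtain ⟨_, i, hi⟩ := (mem_faces s).1 hs
    have := (mem_tri _).2 ⟨i, rfl⟩
    exact ⟨(T i).map pt, this.1, hi, this.2⟩
  hereditary γ σ τ hσ hσc hγσ hτ hτc hγτ := by
    obtain ⟨i, rfl⟩ := (mem_tri σ).1 ⟨hσ, hσc⟩
    obtain ⟨j, rfl⟩ := (mem_tri τ).1 ⟨hτ, hτc⟩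
    have hγ : γ ⊆ (T i ∩ T j).map pt := by
      rw [Finset.map_inter]
      exact Finset.subset_inter hγσ hγτ
    have hsymm : ∀ a b : Finset (ℝ × ℝ), ((a ∈ Δ.faces ∧ a.card = 3) ∧
        (b ∈ Δ.faces ∧ b.card = 3) ∧ (a ∩ b).card = 2 ∧ γ ⊆ a ∩ b) →
        ((b ∈ Δ.faces ∧ b.card = 3) ∧ (a ∈ Δ.faces ∧ a.card = 3) ∧
          (b ∩ a).card = 2 ∧ γ ⊆ b ∩ a) := by
      rintro a b ⟨h1, h2, h3, h4⟩
      exact ⟨h2, h1, by rw [Finset.inter_comm]; exact h3, by rw [Finset.inter_comm]; exact h4⟩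
    have chain : ∀ (i k : Fin 10), (∀ m : Fin 10, m < k →
        γ ⊆ (T (i + m) ∩ T (i + m + 1)).map pt) → ∀ n : ℕ, n ≤ k.val →
        Relation.ReflTransGen (fun σ' τ' : Finset (ℝ × ℝ) =>
          (σ' ∈ Δ.faces ∧ σ'.card = 3) ∧ (τ' ∈ Δ.faces ∧ τ'.card = 3) ∧
          (σ' ∩ τ').card = 2 ∧ γ ⊆ σ' ∩ τ') ((T i).map pt) ((T (i + Fin.ofNat 10 n)).map pt) := by
      intro i k hk n
      induction n with
      | zero =>
        intro _
        have h0 : i + Fin.ofNat 10 0 = i := add_zero i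
        rw [h0]
      | succ n ih =>
        intro hn
        refine (ih (by omega)).tail ?_
        have hn' : Fin.ofNat 10 n < k := by
          rw [Fin.lt_def]
          change n % 10 < k.val
          rw [Nat.mod_eq_of_lt (by omega)]
          omega
        rw [ofNat_succ, ← add_assoc]
        refine ⟨(mem_tri _).2 ⟨_, rfl⟩, (mem_tri _).2 ⟨_, rfl⟩, ?_, ?_⟩
        · rw [← Finset.map_inter, Finset.card_map, T_adj]
        · rw [← Finset.map_inter]
          exact hk _ hn'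
    rcases T_chain i j with ⟨k, hk, h⟩ | ⟨k, hk, h⟩
    · have h2 := chain i k (fun m hm => hγ.trans (Finset.map_subset_map.2 (h m hm))) k.val le_rfl
      rw [ofNat_val, hk] at h2
      exact h2
    · have h2 := chain j k (fun m hm => hγ.trans (Finset.map_subset_map.2 (h m hm))) k.val le_rfl
      rw [ofNat_val, hk] at h2
      have h3 := Relation.reflTransGen_swap.2 h2
      exact Relation.ReflTransGen.mono (fun a b hab => hsymm b a hab) _ _ h3

end Complex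

section Module

open MvPolynomial

/-- The polynomial ring `ℝ[x, y, z]`, `x = X 0`, `y = X 1`, `z = X 2`. -/
abbrev S : Type := MvPolynomial (Fin 3) ℝ

/-- The linear form which vanishes on the cone over the line through `a` and `b` (the plane is
placed at height `z = 1`). -/
noncomputable def lineForm (a b : ℝ × ℝ) : S :=
  C (a.2 - b.2) * X 0 + C (b.1 - a.1) * X 1 + C (a.1 * b.2 - b.1 * a.2) * X 2

/-- The triangles of a complex. -/
abbrev Tri (Δ : Geometry.SimplicialComplex ℝ (ℝ × ℝ)) : Type :=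
  {s : Finset (ℝ × ℝ) // s ∈ Δ.faces ∧ s.card = 3}

open Classical in
/-- The spline module `C^r` of the cone over `Δ`: one polynomial for each triangle, such that for
two triangles which share the edge `ab` the difference of the polynomials is divisible by the
`(r + 1)`-st power of the linear form of the plane spanned by the edge and the origin. For a
hereditary complex these are exactly the piecewise polynomial `C^r` functions (Billera and
Rose). -/
noncomputable def splines (Δ : Geometry.SimplicialComplex ℝ (ℝ × ℝ)) (r : ℕ) :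
    Submodule S (Tri Δ → S) where
  carrier := {F | ∀ (σ τ : Tri Δ) (a b : ℝ × ℝ), a ≠ b → σ.1 ∩ τ.1 = {a, b} →
    lineForm a b ^ (r + 1) ∣ F σ - F τ}
  add_mem' := by
    intro F G hF hG σ τ a b hab h
    have : (F + G) σ - (F + G) τ = (F σ - F τ) + (G σ - G τ) := by
      simp only [Pi.add_apply]; ring
    rw [this]
    exact dvd_add (hF σ τ a b hab h) (hG σ τ a b hab h)
  zero_mem' := by
    intro σ τ a b _ _
    simp
  smul_mem' := by
    intro c F hF σ τ a b hab h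
    have : (c • F) σ - (c • F) τ = c * (F σ - F τ) := by
      simp only [Pi.smul_apply, smul_eq_mul]; ring
    rw [this]
    exact (hF σ τ a b hab h).mul_left c

/-- Homogeneous elements of degree `d` of the graded free module `⨁ S(-aᵢ)`. -/
def HomAt {ι : Type*} (a : ι → ℤ) (d : ℤ) (v : ι → S) : Prop :=
  ∀ i, v i = 0 ∨ ∃ e : ℕ, a i + e = d ∧ (v i).IsHomogeneous e

/-- `reg M ≤ m`: the graded submodule `M` of `S ^ ι` (`S ^ ι` generated in degree `0`) has a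
graded free resolution `⋯ → F₁ → F₀ → M → 0`, `Fᵢ = ⨁ⱼ S(-aᵢⱼ)` of finite rank, with
`aᵢⱼ ≤ m + i` for all `i` and `j`. (The minimal resolution is a direct summand of every other
one, so it is the same to ask this for the minimal resolution.) -/
def RegLE {ι : Type*} (M : Submodule S (ι → S)) (m : ℤ) : Prop :=
  ∃ (n : ℕ → ℕ) (a : ∀ i, Fin (n i) → ℤ) (ε : (Fin (n 0) → S) →ₗ[S] (ι → S))
    (δ : ∀ i, (Fin (n (i + 1)) → S) →ₗ[S] (Fin (n i) → S)),
    (∀ i j, a i j ≤ m + i) ∧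
    (∀ d v, HomAt (a 0) d v → HomAt (fun _ => 0) d (ε v)) ∧
    (∀ i d v, HomAt (a (i + 1)) d v → HomAt (a i) d (δ i v)) ∧
    LinearMap.range ε = M ∧ LinearMap.ker ε = LinearMap.range (δ 0) ∧
    ∀ i, LinearMap.ker (δ i) = LinearMap.range (δ (i + 1))

/-- Koszul exactness. -/
lemma koszul_one (p q t : S) (h : X 2 * p + X 0 * q + X 1 * t = 0) :
    ∃ α β : S, p = X 0 * α + X 1 * β := by
  have hp : X 2 * p ∈ Ideal.span (X '' ({0, 1} : Set (Fin 3)) : Set S) := by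
    have h2 : X 2 * p = X 0 * (-q) + X 1 * (-t) := by linear_combination h
    rw [h2]
    refine Ideal.add_mem _ (Ideal.mul_mem_right _ _ (Ideal.subset_span ⟨0, by simp, rfl⟩))
      (Ideal.mul_mem_right _ _ (Ideal.subset_span ⟨1, by simp, rfl⟩))
  have hp' : p ∈ Ideal.span (X '' ({0, 1} : Set (Fin 3)) : Set S) := by
    rw [mem_ideal_span_X_image] at hp ⊢
    intro m hm
    have h3 : Finsupp.single 2 1 + m ∈ (X 2 * p).support := by
      rw [mem_support_iff, coeff_X_mul]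
      exact mem_support_iff.1 hm
    obtain ⟨i, hi, hne⟩ := hp _ h3
    refine ⟨i, hi, ?_⟩
    rcases hi with rfl | rfl
    · simpa using hne
    · simpa using hne
  rw [Set.image_pair, Ideal.mem_span_pair] at hp'
  obtain ⟨α, β, h5⟩ := hp'
  exact ⟨α, β, by rw [← h5]; ring⟩

section graded

variable {ι κ : Type*}

/-- The component of degree `d`. -/
noncomputable def comp (a : ι → ℤ) (d : ℤ) : (ι → S) →+ (ι → S) where
  toFun v i := if a i ≤ d then homogeneousComponent (d - a i).toNat (v i) else 0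
  map_zero' := by
    funext i
    simp
  map_add' v w := by
    funext i
    by_cases h : a i ≤ d
    · simp [h]
    · simp [h]

lemma comp_apply (a : ι → ℤ) (d : ℤ) (v : ι → S) (i : ι) :
    comp a d v i = if a i ≤ d then homogeneousComponent (d - a i).toNat (v i) else 0 := rfl

lemma comp_homAt (a : ι → ℤ) (d : ℤ) (v : ι → S) : HomAt a d (comp a d v) := by
  intro i
  rw [comp_apply]
  by_cases h : a i ≤ d
  · right
    refine ⟨(d - a i).toNat, ?_, ?_⟩
    · rw [Int.toNat_of_nonneg (by omega)]; omega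
    · rw [if_pos h]
      exact homogeneousComponent_isHomogeneous _ _
  · left
    rw [if_neg h]

lemma comp_of_homAt {a : ι → ℤ} {d : ℤ} {v : ι → S} (h : HomAt a d v) : comp a d v = v := by
  funext i
  rw [comp_apply]
  rcases h i with h0 | ⟨e, he, hh⟩
  · rw [h0]; simp
  · have h1 : a i ≤ d := by omega
    have h2 : (d - a i).toNat = e := by omega
    rw [if_pos h1, h2, homogeneousComponent_of_mem ((mem_homogeneousSubmodule _ _).2 hh),
      if_pos rfl]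

lemma comp_of_homAt_ne {a : ι → ℤ} {d e : ℤ} {v : ι → S} (h : HomAt a e v) (hne : e ≠ d) :
    comp a d v = 0 := by
  funext i
  rw [comp_apply]
  rcases h i with h0 | ⟨f, hf, hh⟩
  · rw [h0]; simp
  · by_cases h1 : a i ≤ d
    · rw [if_pos h1, homogeneousComponent_of_mem ((mem_homogeneousSubmodule _ _).2 hh), if_neg]
      · rfl
      · omega
    · rw [if_neg h1]
      rfl

lemma mem_closure_hom [Fintype ι] [DecidableEq ι] (a : ι → ℤ) (v : ι → S) :
    v ∈ AddSubmonoid.closure {w : ι → S | ∃ d, HomAt a d w} := by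
  rw [← Finset.univ_sum_single v]
  refine AddSubmonoid.sum_mem _ (fun i _ => ?_)
  have h : (Pi.single i (v i) : ι → S) = ∑ k ∈ Finset.range ((v i).totalDegree + 1),
      Pi.single i (homogeneousComponent k (v i)) := by
    have h2 := map_sum (AddMonoidHom.single (fun _ : ι => S) i)
      (fun k => homogeneousComponent k (v i)) (Finset.range ((v i).totalDegree + 1))
    rw [sum_homogeneousComponent] at h2
    exact h2
  rw [h]
  refine AddSubmonoid.sum_mem _ (fun k _ => AddSubmonoid.subset_closure ⟨a i + k, fun j => ?_⟩)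
  by_cases hj : j = i
  · subst hj
    right
    exact ⟨k, rfl, by rw [Pi.single_eq_same]; exact homogeneousComponent_isHomogeneous _ _⟩
  · left
    rw [Pi.single_eq_of_ne hj]

lemma comp_comm [Fintype ι] [DecidableEq ι] {a : ι → ℤ} {b : κ → ℤ}
    (L : (ι → S) →ₗ[S] (κ → S)) (hL : ∀ d v, HomAt a d v → HomAt b d (L v)) (d : ℤ) (v : ι → S) :
    comp b d (L v) = L (comp a d v) := by
  refine AddSubmonoid.closure_induction (motive := fun v _ => comp b d (L v) = L (comp a d v))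
    ?_ ?_ ?_ (mem_closure_hom a v)
  · rintro w ⟨e, he⟩
    by_cases hed : e = d
    · subst hed
      rw [comp_of_homAt he, comp_of_homAt (hL _ _ he)]
    · rw [comp_of_homAt_ne he hed, comp_of_homAt_ne (hL _ _ he) hed, map_zero]
  · simp
  · intro v w _ _ hv hw
    rw [map_add, map_add, map_add, map_add, hv, hw]

/-- Homogeneous preimages. -/
lemma exists_hom_preimage [Fintype ι] [DecidableEq ι] {a : ι → ℤ} {b : κ → ℤ}
    (L : (ι → S) →ₗ[S] (κ → S)) (hL : ∀ d v, HomAt a d v → HomAt b d (L v)) (d : ℤ) (w : κ → S)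
    (hw : HomAt b d w) (h : ∃ v, L v = w) : ∃ v, HomAt a d v ∧ L v = w := by
  obtain ⟨v, rfl⟩ := h
  exact ⟨comp a d v, comp_homAt a d v, by rw [← comp_comm L hL, comp_of_homAt hw]⟩

lemma homAt_X_smul {a : ι → ℤ} {d : ℤ} {v : ι → S} (h : HomAt a d v) (l : Fin 3) :
    HomAt a (d + 1) ((X l : S) • v) := by
  intro i
  rcases h i with h0 | ⟨e, he, hh⟩
  · left
    rw [Pi.smul_apply, h0, smul_zero]
  · right
    refine ⟨1 + e, by push_cast; omega, ?_⟩
    rw [Pi.smul_apply, smul_eq_mul]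
    exact (isHomogeneous_X _ _).mul hh

lemma homAt_add {a : ι → ℤ} {d : ℤ} {v w : ι → S} (h : HomAt a d v) (h' : HomAt a d w) :
    HomAt a d (v + w) := by
  intro i
  rcases h i with h0 | ⟨e, he, hh⟩
  · rcases h' i with h0' | ⟨e', he', hh'⟩
    · left
      rw [Pi.add_apply, h0, h0', add_zero]
    · right
      refine ⟨e', he', ?_⟩
      rw [Pi.add_apply, h0, zero_add]
      exact hh'
  · rcases h' i with h0' | ⟨e', he', hh'⟩
    · right
      refine ⟨e, he, ?_⟩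
      rw [Pi.add_apply, h0', add_zero]
      exact hh
    · right
      have : e = e' := by omega
      subst this
      exact ⟨e, he, by rw [Pi.add_apply]; exact hh.add hh'⟩

/-- Homogeneous polynomials of positive degree lie in the ideal `(x, y, z)`. -/
lemma exists_of_hom_pos {p : S} {e : ℕ} (he : 1 ≤ e) (hp : p.IsHomogeneous e) :
    ∃ f : Fin 3 → S, p = X 0 * f 0 + X 1 * f 1 + X 2 * f 2 := by
  have h : p ∈ Ideal.span (X '' (Set.univ : Set (Fin 3)) : Set S) := by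
    rw [mem_ideal_span_X_image]
    intro m hm
    have h1 : m.degree = e := by
      by_contra hne
      exact mem_support_iff.1 hm (hp.coeff_eq_zero hne)
    have h2 : m ≠ 0 := by
      rintro rfl
      rw [map_zero] at h1
      omega
    obtain ⟨i, hi⟩ := Finsupp.ne_iff.1 h2
    exact ⟨i, Set.mem_univ i, hi⟩
  rw [Set.image_univ, Ideal.mem_span_range_iff_exists_fun] at h
  obtain ⟨c, hc⟩ := h
  refine ⟨c, ?_⟩
  rw [← hc, Fin.sum_univ_three]
  ring

end graded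

/-- The `i`-th triangle. -/
noncomputable def tr (i : Fin 10) : Tri Δ := ⟨(T i).map pt, (mem_tri _).2 ⟨i, rfl⟩⟩

/-- The number of a triangle. -/
noncomputable def idx (σ : Tri Δ) : Fin 10 := ((mem_tri σ.1).1 σ.2).choose

lemma idx_spec (σ : Tri Δ) : σ.1 = (T (idx σ)).map pt := ((mem_tri σ.1).1 σ.2).choose_spec

lemma idx_tr (i : Fin 10) : idx (tr i) = i := by
  have h : (T i).map pt = (T (idx (tr i))).map pt := idx_spec (tr i)
  exact (T_inj _ _ (Finset.map_injective pt h)).symm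

/-- The linear forms of the four lines. -/
noncomputable def lf (j : Fin 4) : S :=
  C ((ell j).1 : ℝ) * X 0 + C ((ell j).2.1 : ℝ) * X 1 + C ((ell j).2.2 : ℝ) * X 2

lemma lineForm_E2 (i : Fin 10) :
    lineForm (pt (E2 i).1) (pt (E2 i).2) = C (kk i : ℝ) * lf (ln i) := by
  obtain ⟨h1, h2, h3⟩ := line_coeff i
  have h1' : (((V (E2 i).1).2 : ℝ) - ((V (E2 i).2).2 : ℝ)) = (kk i : ℝ) * ((ell (ln i)).1 : ℝ) := by
    exact_mod_cast h1
  have h2' : (((V (E2 i).2).1 : ℝ) - ((V (E2 i).1).1 : ℝ)) =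
      (kk i : ℝ) * ((ell (ln i)).2.1 : ℝ) := by
    exact_mod_cast h2
  have h3' : (((V (E2 i).1).1 : ℝ) * ((V (E2 i).2).2 : ℝ) -
      ((V (E2 i).2).1 : ℝ) * ((V (E2 i).1).2 : ℝ)) = (kk i : ℝ) * ((ell (ln i)).2.2 : ℝ) := by
    exact_mod_cast h3
  simp only [lineForm, pt_fst, pt_snd, lf, h1', h2', h3', C_mul]
  ring

lemma lineForm_swap (a b : ℝ × ℝ) : lineForm b a = - lineForm a b := by
  have e1 : b.2 - a.2 = -(a.2 - b.2) := by ring
  have e2 : a.1 - b.1 = -(b.1 - a.1) := by ring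
  have e3 : b.1 * a.2 - a.1 * b.2 = -(a.1 * b.2 - b.1 * a.2) := by ring
  simp only [lineForm]
  rw [e1, e2, e3, C_neg, C_neg, C_neg]
  ring

/-- Elements of the spline module satisfy the conditions at the ten edges. -/
lemma dvd_of_mem {F : Tri Δ → S} (hF : F ∈ splines Δ 2) (i : Fin 10) :
    lf (ln i) ^ 3 ∣ F (tr (i + 1)) - F (tr i) := by
  classical
  have hne : pt (E2 i).1 ≠ pt (E2 i).2 := by
    intro h
    have h1 := T_adj i
    rw [T_inter i, pt.injective h] at h1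
    simp at h1
  have h := hF (tr i) (tr (i + 1)) (pt (E2 i).1) (pt (E2 i).2) hne (by
    have h2 : (T i).map pt ∩ (T (i + 1)).map pt = {pt (E2 i).1, pt (E2 i).2} := by
      rw [← Finset.map_inter, T_inter]
      simp [Finset.map_insert]
    convert h2 <;> rfl)
  rw [lineForm_E2, mul_pow] at h
  have h3 := (dvd_of_mul_left_dvd h)
  rw [← neg_sub]
  exact (dvd_neg).2 h3

/-- A criterion for membership in the spline module. -/
lemma mem_of_dvd (G : Fin 10 → S) (hG : ∀ i, lf (ln i) ^ 3 ∣ G (i + 1) - G i) :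
    (fun σ => G (idx σ)) ∈ splines Δ 2 := by
  classical
  intro σ τ a b hab h
  have hE : ∀ i, lineForm (pt (E2 i).1) (pt (E2 i).2) ^ 3 ∣ G (i + 1) - G i := by
    intro i
    rw [lineForm_E2, mul_pow, ← C_pow]
    have hu : IsUnit (C ((kk i : ℝ) ^ 3) : S) := by
      apply IsUnit.map
      exact (pow_ne_zero 3 (by exact_mod_cast kk_ne i)).isUnit
    exact (hu.mul_left_dvd).2 (hG i)
  have hst : (T (idx σ) ∩ T (idx τ)).map pt = {a, b} := by
    rw [Finset.map_inter, ← idx_spec σ, ← idx_spec τ]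
    convert h
  have hc : (T (idx σ) ∩ T (idx τ)).card = 2 := by
    rw [← Finset.card_map pt, hst, Finset.card_pair hab]
  have key : ∀ i, ({pt (E2 i).1, pt (E2 i).2} : Finset (ℝ × ℝ)) = {a, b} →
      lineForm a b ^ 3 ∣ G (i + 1) - G i := by
    intro i hi
    have h1 : ({pt (E2 i).1, pt (E2 i).2} : Set (ℝ × ℝ)) = {a, b} := by
      have := congrArg (fun s : Finset (ℝ × ℝ) => (s : Set (ℝ × ℝ))) hi
      simpa using this
    rcases Set.pair_eq_pair_iff.1 h1 with ⟨h2, h3⟩ | ⟨h2, h3⟩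
    · rw [← h2, ← h3]; exact hE i
    · rw [← h2, ← h3, lineForm_swap, Odd.neg_pow (by decide)]
      exact (neg_dvd).2 (hE i)
  have hinter : ∀ i, ((T i ∩ T (i + 1)).map pt : Finset (ℝ × ℝ)) =
      {pt (E2 i).1, pt (E2 i).2} := by
    intro i
    rw [T_inter]
    simp [Finset.map_insert]
  rcases T_adj' _ _ hc with h4 | h4
  · rw [h4] at hst
    rw [hinter] at hst
    have := key _ hst
    change lineForm a b ^ 3 ∣ G (idx σ) - G (idx τ)
    rw [h4, ← neg_sub]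
    exact (dvd_neg).2 this
  · rw [h4, Finset.inter_comm] at hst
    rw [hinter] at hst
    have := key _ hst
    change lineForm a b ^ 3 ∣ G (idx σ) - G (idx τ)
    rw [h4]
    exact this

/-- Exponent vectors. -/
noncomputable def mm (a b c : ℕ) : Fin 3 →₀ ℕ := Finsupp.equivFunOnFinite.symm ![a, b, c]

lemma mm_le (a b c a' b' c' : ℕ) : mm a b c ≤ mm a' b' c' ↔ a ≤ a' ∧ b ≤ b' ∧ c ≤ c' := by
  rw [Finsupp.le_def]
  constructor
  · intro h
    exact ⟨h 0, h 1, h 2⟩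
  · rintro ⟨h0, h1, h2⟩ i
    fin_cases i
    · exact h0
    · exact h1
    · exact h2

lemma mm_sub (a b c a' b' c' : ℕ) : mm a b c - mm a' b' c' = mm (a - a') (b - b') (c - c') := by
  ext i
  fin_cases i <;> rfl

lemma mono_mm (a b c : ℕ) : (monomial (mm a b c) (1 : ℝ) : S) = X 0 ^ a * X 1 ^ b * X 2 ^ c := by
  rw [monomial_eq, C_1, one_mul, Finsupp.prod_fintype _ _ (fun i => pow_zero _),
    Fin.prod_univ_three]
  rfl

lemma coeff_mm (v : S) (a b c a' b' c' : ℕ) :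
    coeff (mm a b c) (v * (X 0 ^ a' * X 1 ^ b' * X 2 ^ c')) =
      if a' ≤ a ∧ b' ≤ b ∧ c' ≤ c then coeff (mm (a - a') (b - b') (c - c')) v else 0 := by
  rw [← mono_mm, coeff_mul_monomial']
  simp only [mm_le, mm_sub, mul_one]

lemma lf0 : lf 0 = X 0 + X 1 := by simp [lf, ell]
lemma lf1 : lf 1 = X 0 := by simp [lf, ell]
lemma lf2 : lf 2 = X 0 - X 1 := by simp [lf, ell]; ring
lemma lf3 : lf 3 = X 1 - 3 * X 2 := by
  have h : (C (3 : ℝ) : S) = 3 := map_ofNat C 3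
  simp [lf, ell]
  rw [h]
  ring

/-- The form `y - 3z`. -/
noncomputable def W : S := X 1 - 3 * X 2

/-- The socle element. -/
noncomputable def uu : S := 18 * X 0 ^ 2 * X 1 * W ^ 2

lemma uu_not_mem (w : Fin 4 → S)
    (h : uu = w 0 * lf 0 ^ 3 + w 1 * lf 1 ^ 3 + w 2 * lf 2 ^ 3 + w 3 * lf 3 ^ 3) : False := by
  rw [lf0, lf1, lf2, lf3, uu, W] at h
  have h1 := congrArg (aeval (![X 0, X 1, C (1 / 3 : ℝ) * (X 1 - X 2)] : Fin 3 → S)) h
  have h3 : (3 : S) * C (1 / 3 : ℝ) = 1 := by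
    have : (3 : S) = C (3 : ℝ) := (map_ofNat C 3).symm
    rw [this, ← C_mul]
    norm_num
  have h2 : (X 1 : S) - 3 * (C (1 / 3 : ℝ) * (X 1 - X 2)) = X 2 := by
    rw [← mul_assoc, h3]; ring
  simp only [map_add, map_mul, map_pow, map_sub, aeval_X, map_ofNat, Matrix.cons_val_zero,
    Matrix.cons_val_one, Matrix.cons_val] at h1
  rw [h2] at h1
  set v0 := aeval (![X 0, X 1, C (1 / 3 : ℝ) * (X 1 - X 2)] : Fin 3 → S) (w 0)
  set v1 := aeval (![X 0, X 1, C (1 / 3 : ℝ) * (X 1 - X 2)] : Fin 3 → S) (w 1)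
  set v2 := aeval (![X 0, X 1, C (1 / 3 : ℝ) * (X 1 - X 2)] : Fin 3 → S) (w 2)
  set v3 := aeval (![X 0, X 1, C (1 / 3 : ℝ) * (X 1 - X 2)] : Fin 3 → S) (w 3)
  have e : C 18 * (X 0 ^ 2 * X 1 ^ 1 * X 2 ^ 2 : S) =
      v0 * (X 0 ^ 3 * X 1 ^ 0 * X 2 ^ 0) + C 3 * (v0 * (X 0 ^ 2 * X 1 ^ 1 * X 2 ^ 0)) +
      C 3 * (v0 * (X 0 ^ 1 * X 1 ^ 2 * X 2 ^ 0)) + v0 * (X 0 ^ 0 * X 1 ^ 3 * X 2 ^ 0) +
      v1 * (X 0 ^ 3 * X 1 ^ 0 * X 2 ^ 0) +
      v2 * (X 0 ^ 3 * X 1 ^ 0 * X 2 ^ 0) - C 3 * (v2 * (X 0 ^ 2 * X 1 ^ 1 * X 2 ^ 0)) +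
      C 3 * (v2 * (X 0 ^ 1 * X 1 ^ 2 * X 2 ^ 0)) - v2 * (X 0 ^ 0 * X 1 ^ 3 * X 2 ^ 0) +
      v3 * (X 0 ^ 0 * X 1 ^ 0 * X 2 ^ 3) := by
    have e18 : (C (18 : ℝ) : S) = 18 := map_ofNat C 18
    have e3 : (C (3 : ℝ) : S) = 3 := map_ofNat C 3
    rw [e18, e3]
    linear_combination h1
  have eA := congrArg (coeff (mm 2 1 2)) e
  have eB := congrArg (coeff (mm 0 3 2)) e
  rw [← mono_mm] at eA eB
  simp only [coeff_add, coeff_sub, coeff_C_mul, coeff_mm, coeff_monomial] at eA eB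
  norm_num at eA eB
  have hne : mm 2 1 2 ≠ mm 0 3 2 := by
    intro h
    have := DFunLike.congr_fun h 0
    simp [mm] at this
  rw [if_neg hne] at eB
  linarith

/-- Coefficients of the spline syzygies. -/
noncomputable def aX : Fin 4 → S := ![0, 18 * X 1 * W ^ 2, 0, 0]
/-- Coefficients of the spline syzygies. -/
noncomputable def aY : Fin 4 → S :=
  ![3 * X 0 * W ^ 2, -6 * X 0 * W ^ 2, 3 * X 0 * W ^ 2, 0]
/-- Coefficients of the spline syzygies. -/
noncomputable def aZ : Fin 4 → S :=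
  ![X 0 * W ^ 2, -2 * X 0 * W ^ 2, X 0 * W ^ 2, -6 * X 0 ^ 2 * X 1]

lemma sum_aX : aX 0 * lf 0 ^ 3 + aX 1 * lf 1 ^ 3 + aX 2 * lf 2 ^ 3 + aX 3 * lf 3 ^ 3 =
    X 0 * uu := by
  rw [lf0, lf1, lf2, lf3]
  simp only [aX, uu, W, Matrix.cons_val_zero, Matrix.cons_val_one, Matrix.cons_val]
  ring

lemma sum_aY : aY 0 * lf 0 ^ 3 + aY 1 * lf 1 ^ 3 + aY 2 * lf 2 ^ 3 + aY 3 * lf 3 ^ 3 =
    X 1 * uu := by
  rw [lf0, lf1, lf2, lf3]
  simp only [aY, uu, W, Matrix.cons_val_zero, Matrix.cons_val_one, Matrix.cons_val]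
  ring

lemma sum_aZ : aZ 0 * lf 0 ^ 3 + aZ 1 * lf 1 ^ 3 + aZ 2 * lf 2 ^ 3 + aZ 3 * lf 3 ^ 3 =
    X 2 * uu := by
  rw [lf0, lf1, lf2, lf3]
  simp only [aZ, uu, W, Matrix.cons_val_zero, Matrix.cons_val_one, Matrix.cons_val]
  ring

/-- The element of `S ^ 10` defined by coefficients. -/
noncomputable def sgF (b : Fin 4 → S) : Fin 10 → S :=
  ![0, b 1 * lf 1 ^ 3, b 1 * lf 1 ^ 3 + b 3 * lf 3 ^ 3,
    b 1 * lf 1 ^ 3 + b 3 * lf 3 ^ 3 + b 2 * lf 2 ^ 3,
    b 1 * lf 1 ^ 3 + b 3 * lf 3 ^ 3 + b 2 * lf 2 ^ 3,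
    b 1 * lf 1 ^ 3 + b 3 * lf 3 ^ 3 + b 2 * lf 2 ^ 3,
    b 1 * lf 1 ^ 3 + b 3 * lf 3 ^ 3 + b 2 * lf 2 ^ 3, 0, 0, 0]

/-- The linear map from coefficients. -/
noncomputable def sg : (Fin 4 → S) →ₗ[S] (Tri Δ → S) where
  toFun b σ := sgF b (idx σ)
  map_add' b c := by
    funext σ
    simp only [Pi.add_apply]
    generalize idx σ = i
    fin_cases i <;> simp [sgF] <;> ring
  map_smul' t b := by
    funext σ
    simp only [Pi.smul_apply, RingHom.id_apply, smul_eq_mul]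
    generalize idx σ = i
    fin_cases i <;> simp [sgF] <;> ring

lemma sg_apply (b : Fin 4 → S) (i : Fin 10) : sg b (tr i) = sgF b i := by
  change sgF b (idx (tr i)) = _
  rw [idx_tr]

lemma sg_mem (b : Fin 4 → S)
    (hb : b 0 * lf 0 ^ 3 + b 1 * lf 1 ^ 3 + b 2 * lf 2 ^ 3 + b 3 * lf 3 ^ 3 = 0) :
    sg b ∈ splines Δ 2 := by
  change (fun σ => sgF b (idx σ)) ∈ splines Δ 2
  apply mem_of_dvd
  intro i
  fin_cases i
  · exact ⟨b 1, by simp [sgF, ln]; ring⟩
  · exact ⟨b 3, by simp [sgF, ln]; ring⟩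
  · exact ⟨b 2, by simp [sgF, ln]; ring⟩
  · exact ⟨0, by simp [sgF, ln]⟩
  · exact ⟨0, by simp [sgF, ln]⟩
  · exact ⟨0, by simp [sgF, ln]⟩
  · exact ⟨b 0, by simp [sgF, ln]; linear_combination -hb⟩
  · exact ⟨0, by simp [sgF, ln]⟩
  · exact ⟨0, by simp [sgF, ln]⟩
  · exact ⟨0, by simp [sgF, ln]⟩

lemma lf_hom (j : Fin 4) : (lf j).IsHomogeneous 1 := by
  unfold lf
  refine IsHomogeneous.add (IsHomogeneous.add ?_ ?_) ?_
  · have := (isHomogeneous_C (Fin 3) ((ell j).1 : ℝ)).mul (isHomogeneous_X ℝ (0 : Fin 3))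
    simpa using this
  · have := (isHomogeneous_C (Fin 3) ((ell j).2.1 : ℝ)).mul (isHomogeneous_X ℝ (1 : Fin 3))
    simpa using this
  · have := (isHomogeneous_C (Fin 3) ((ell j).2.2 : ℝ)).mul (isHomogeneous_X ℝ (2 : Fin 3))
    simpa using this

lemma sg_hom (b : Fin 4 → S) (hb : ∀ j, (b j).IsHomogeneous 4) :
    HomAt (fun _ : Tri Δ => 0) 7 (sg b) := by
  intro σ
  have h : ∀ j, (b j * lf j ^ 3).IsHomogeneous 7 := fun j => (hb j).mul ((lf_hom j).pow 3)
  have h7 : (sgF b (idx σ)).IsHomogeneous 7 := by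
    generalize idx σ = i
    fin_cases i
    · exact isHomogeneous_zero _ _ _
    · exact h 1
    · exact (h 1).add (h 3)
    · exact ((h 1).add (h 3)).add (h 2)
    · exact ((h 1).add (h 3)).add (h 2)
    · exact ((h 1).add (h 3)).add (h 2)
    · exact ((h 1).add (h 3)).add (h 2)
    · exact isHomogeneous_zero _ _ _
    · exact isHomogeneous_zero _ _ _
    · exact isHomogeneous_zero _ _ _
  right
  exact ⟨7, by norm_num, h7⟩

/-- The total jumps of a spline across the four lines. -/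
lemma jumps {F : Tri Δ → S} (hF : F ∈ splines Δ 2) :
    ∃ c : Fin 4 → S, c 0 * lf 0 ^ 3 + c 1 * lf 1 ^ 3 + c 2 * lf 2 ^ 3 + c 3 * lf 3 ^ 3 = 0 ∧
      (F (tr 7) - F (tr 6)) + (F (tr 9) - F (tr 8)) = c 0 * lf 0 ^ 3 ∧
      (F (tr 1) - F (tr 0)) + (F (tr 6) - F (tr 5)) = c 1 * lf 1 ^ 3 ∧
      (F (tr 3) - F (tr 2)) + (F (tr 5) - F (tr 4)) = c 2 * lf 2 ^ 3 ∧
      (F (tr 2) - F (tr 1)) + (F (tr 4) - F (tr 3)) + (F (tr 8) - F (tr 7)) +
        (F (tr 0) - F (tr 9)) = c 3 * lf 3 ^ 3 := by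
  obtain ⟨q0, h0⟩ := dvd_of_mem hF 0
  obtain ⟨q1, h1⟩ := dvd_of_mem hF 1
  obtain ⟨q2, h2⟩ := dvd_of_mem hF 2
  obtain ⟨q3, h3⟩ := dvd_of_mem hF 3
  obtain ⟨q4, h4⟩ := dvd_of_mem hF 4
  obtain ⟨q5, h5⟩ := dvd_of_mem hF 5
  obtain ⟨q6, h6⟩ := dvd_of_mem hF 6
  obtain ⟨q7, h7⟩ := dvd_of_mem hF 7
  obtain ⟨q8, h8⟩ := dvd_of_mem hF 8
  obtain ⟨q9, h9⟩ := dvd_of_mem hF 9
  change F (tr 1) - F (tr 0) = lf 1 ^ 3 * q0 at h0
  change F (tr 2) - F (tr 1) = lf 3 ^ 3 * q1 at h1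
  change F (tr 3) - F (tr 2) = lf 2 ^ 3 * q2 at h2
  change F (tr 4) - F (tr 3) = lf 3 ^ 3 * q3 at h3
  change F (tr 5) - F (tr 4) = lf 2 ^ 3 * q4 at h4
  change F (tr 6) - F (tr 5) = lf 1 ^ 3 * q5 at h5
  change F (tr 7) - F (tr 6) = lf 0 ^ 3 * q6 at h6
  change F (tr 8) - F (tr 7) = lf 3 ^ 3 * q7 at h7
  change F (tr 9) - F (tr 8) = lf 0 ^ 3 * q8 at h8
  change F (tr 0) - F (tr 9) = lf 3 ^ 3 * q9 at h9
  refine ⟨![q6 + q8, q0 + q5, q2 + q4, q1 + q3 + q7 + q9], ?_, ?_, ?_, ?_, ?_⟩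
  · simp
    linear_combination -h0 - h1 - h2 - h3 - h4 - h5 - h6 - h7 - h8 - h9
  · simp
    linear_combination h6 + h8
  · simp
    linear_combination h0 + h5
  · simp
    linear_combination h2 + h4
  · simp
    linear_combination h1 + h3 + h7 + h9

lemma lf_ne (j : Fin 4) : lf j ^ 3 ≠ 0 := by
  apply pow_ne_zero
  intro h
  have h0 := congrArg (fun p : S => eval (![1, 2, 0] : Fin 3 → ℝ) p) h
  revert h0
  fin_cases j <;> simp [lf, ell] <;> norm_num

/-- The syzygy `y e_X - x e_Y`. -/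
noncomputable def sXY : Fin 4 → S := fun j => X 1 * aX j - X 0 * aY j
/-- The syzygy `z e_Y - y e_Z`. -/
noncomputable def sYZ : Fin 4 → S := fun j => X 2 * aY j - X 1 * aZ j
/-- The syzygy `x e_Z - z e_X`. -/
noncomputable def sZX : Fin 4 → S := fun j => X 0 * aZ j - X 2 * aX j

/-- The spline of `sXY` is not in `(x, y) C^2`. -/
lemma not_decomp (m1 m2 : Tri Δ → S) (h1 : m1 ∈ splines Δ 2) (h2 : m2 ∈ splines Δ 2)
    (h : sg sXY = (X 0 : S) • m1 + (X 1 : S) • m2) : False := by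
  obtain ⟨c1, hc1, a0, a1, a2, a3⟩ := jumps h1
  obtain ⟨c2, hc2, b0, b1, b2, b3⟩ := jumps h2
  have hs : ∀ i, sgF sXY i = X 0 * m1 (tr i) + X 1 * m2 (tr i) := by
    intro i
    rw [← sg_apply, h]
    simp
  have hb : sXY 0 * lf 0 ^ 3 + sXY 1 * lf 1 ^ 3 + sXY 2 * lf 2 ^ 3 + sXY 3 * lf 3 ^ 3 = 0 := by
    simp only [sXY]
    linear_combination X 1 * sum_aX - X 0 * sum_aY
  have s0 := hs 0
  have s1 := hs 1
  have s2 := hs 2
  have s3 := hs 3
  have s4 := hs 4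
  have s5 := hs 5
  have s6 := hs 6
  have s7 := hs 7
  have s8 := hs 8
  have s9 := hs 9
  simp only [sgF, Matrix.cons_val_zero, Matrix.cons_val_one, Matrix.cons_val] at s0 s1 s2 s3 s4 s5 s6 s7 s8 s9
  have k0 : sXY 0 = X 0 * c1 0 + X 1 * c2 0 := by
    apply mul_right_cancel₀ (lf_ne 0)
    linear_combination hb + s7 - s6 + s9 - s8 + X 0 * a0 + X 1 * b0
  have k1 : sXY 1 = X 0 * c1 1 + X 1 * c2 1 := by
    apply mul_right_cancel₀ (lf_ne 1)
    linear_combination s1 - s0 + s6 - s5 + X 0 * a1 + X 1 * b1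
  have k2 : sXY 2 = X 0 * c1 2 + X 1 * c2 2 := by
    apply mul_right_cancel₀ (lf_ne 2)
    linear_combination s3 - s2 + s5 - s4 + X 0 * a2 + X 1 * b2
  have k3 : sXY 3 = X 0 * c1 3 + X 1 * c2 3 := by
    apply mul_right_cancel₀ (lf_ne 3)
    linear_combination s2 - s1 + s4 - s3 + s8 - s7 + s0 - s9 + X 0 * a3 + X 1 * b3
  have k : ∀ j, sXY j = X 0 * c1 j + X 1 * c2 j := by
    intro j
    fin_cases j
    · exact k0
    · exact k1
    · exact k2
    · exact k3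
  have hw : ∀ j, ∃ w, aX j - c2 j = X 0 * w := by
    intro j
    have h5 : (X 0 : S) ∣ X 1 * (aX j - c2 j) := by
      refine ⟨aY j + c1 j, ?_⟩
      have := k j
      simp only [sXY] at this
      linear_combination this
    have hp : Prime (X 0 : S) := X_prime
    rcases hp.dvd_or_dvd h5 with h6 | h6
    · exfalso
      rw [X_dvd_X] at h6
      revert h6
      simp
    · exact h6
  choose w hw using hw
  refine uu_not_mem w ?_
  have hx : (X 0 : S) ≠ 0 := X_ne_zero 0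
  apply mul_left_cancel₀ hx
  rw [← sum_aX]
  have w0 := hw 0
  have w1 := hw 1
  have w2 := hw 2
  have w3 := hw 3
  linear_combination hc2 + lf 0 ^ 3 * w0 + lf 1 ^ 3 * w1 + lf 2 ^ 3 * w2 + lf 3 ^ 3 * w3

lemma sXY_sum : sXY 0 * lf 0 ^ 3 + sXY 1 * lf 1 ^ 3 + sXY 2 * lf 2 ^ 3 + sXY 3 * lf 3 ^ 3 = 0 := by
  simp only [sXY]
  linear_combination X 1 * sum_aX - X 0 * sum_aY

lemma sYZ_sum : sYZ 0 * lf 0 ^ 3 + sYZ 1 * lf 1 ^ 3 + sYZ 2 * lf 2 ^ 3 + sYZ 3 * lf 3 ^ 3 = 0 := by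
  simp only [sYZ]
  linear_combination X 2 * sum_aY - X 1 * sum_aZ

lemma sZX_sum : sZX 0 * lf 0 ^ 3 + sZX 1 * lf 1 ^ 3 + sZX 2 * lf 2 ^ 3 + sZX 3 * lf 3 ^ 3 = 0 := by
  simp only [sZX]
  linear_combination X 0 * sum_aZ - X 2 * sum_aX

lemma W_hom : W.IsHomogeneous 1 := by
  have := lf_hom 3
  rw [lf3] at this
  exact this

lemma X_hom (i : Fin 3) : (X i : S).IsHomogeneous 1 := isHomogeneous_X _ _

lemma num_hom (c : ℝ) {p : S} {n : ℕ} (hp : p.IsHomogeneous n) : (C c * p).IsHomogeneous n := by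
  have := (isHomogeneous_C (Fin 3) c).mul hp
  rwa [zero_add] at this

lemma aX_hom (j : Fin 4) : (aX j).IsHomogeneous 3 := by
  have h : (18 * X 1 * W ^ 2 : S) = C 18 * (X 1 * W ^ 2) := by
    have e : (C (18 : ℝ) : S) = 18 := map_ofNat C 18
    rw [e]; ring
  fin_cases j
  · exact isHomogeneous_zero _ _ _
  · change (18 * X 1 * W ^ 2 : S).IsHomogeneous 3
    rw [h]
    exact num_hom _ ((X_hom 1).mul (W_hom.pow 2))
  · exact isHomogeneous_zero _ _ _
  · exact isHomogeneous_zero _ _ _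

lemma aY_hom (j : Fin 4) : (aY j).IsHomogeneous 3 := by
  have h : (3 * X 0 * W ^ 2 : S) = C 3 * (X 0 * W ^ 2) := by
    have e : (C (3 : ℝ) : S) = 3 := map_ofNat C 3
    rw [e]; ring
  have h' : (-6 * X 0 * W ^ 2 : S) = C (-6) * (X 0 * W ^ 2) := by
    have e : (C (6 : ℝ) : S) = 6 := map_ofNat C 6
    rw [C_neg, e]; ring
  fin_cases j
  · change (3 * X 0 * W ^ 2 : S).IsHomogeneous 3
    rw [h]
    exact num_hom _ ((X_hom 0).mul (W_hom.pow 2))
  · change (-6 * X 0 * W ^ 2 : S).IsHomogeneous 3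
    rw [h']
    exact num_hom _ ((X_hom 0).mul (W_hom.pow 2))
  · change (3 * X 0 * W ^ 2 : S).IsHomogeneous 3
    rw [h]
    exact num_hom _ ((X_hom 0).mul (W_hom.pow 2))
  · exact isHomogeneous_zero _ _ _

lemma aZ_hom (j : Fin 4) : (aZ j).IsHomogeneous 3 := by
  have h' : (-2 * X 0 * W ^ 2 : S) = C (-2) * (X 0 * W ^ 2) := by
    have e : (C (2 : ℝ) : S) = 2 := map_ofNat C 2
    rw [C_neg, e]; ring
  have h : (-6 * X 0 ^ 2 * X 1 : S) = C (-6) * (X 0 ^ 2 * X 1) := by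
    have e : (C (6 : ℝ) : S) = 6 := map_ofNat C 6
    rw [C_neg, e]; ring
  fin_cases j
  · exact (X_hom 0).mul (W_hom.pow 2)
  · change (-2 * X 0 * W ^ 2 : S).IsHomogeneous 3
    rw [h']
    exact num_hom _ ((X_hom 0).mul (W_hom.pow 2))
  · exact (X_hom 0).mul (W_hom.pow 2)
  · change (-6 * X 0 ^ 2 * X 1 : S).IsHomogeneous 3
    rw [h]
    exact num_hom _ (((X_hom 0).pow 2).mul (X_hom 1))

lemma sXY_hom (j : Fin 4) : (sXY j).IsHomogeneous 4 :=
  ((X_hom 1).mul (aX_hom j)).sub ((X_hom 0).mul (aY_hom j))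

lemma sYZ_hom (j : Fin 4) : (sYZ j).IsHomogeneous 4 :=
  ((X_hom 2).mul (aY_hom j)).sub ((X_hom 1).mul (aZ_hom j))

lemma sZX_hom (j : Fin 4) : (sZX j).IsHomogeneous 4 :=
  ((X_hom 0).mul (aZ_hom j)).sub ((X_hom 2).mul (aX_hom j))

lemma main : ¬ RegLE (splines Δ 2) 6 := by
  rintro ⟨n, a, ε, δ, hgen, hε, hδ, hrange, hker0, -⟩
  have lift : ∀ b : Fin 4 → S, (∀ j, (b j).IsHomogeneous 4) →
      b 0 * lf 0 ^ 3 + b 1 * lf 1 ^ 3 + b 2 * lf 2 ^ 3 + b 3 * lf 3 ^ 3 = 0 →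
      ∃ v, HomAt (a 0) 7 v ∧ ε v = sg b := by
    intro b hb hs
    refine exists_hom_preimage ε hε 7 (sg b) (sg_hom b hb) ?_
    have := sg_mem b hs
    rw [← hrange] at this
    exact this
  obtain ⟨P, hP, hP'⟩ := lift sXY sXY_hom sXY_sum
  obtain ⟨Q, hQ, hQ'⟩ := lift sYZ sYZ_hom sYZ_sum
  obtain ⟨R, hR, hR'⟩ := lift sZX sZX_hom sZX_sum
  have hr0 : ε ((X 2 : S) • P + (X 0 : S) • Q + (X 1 : S) • R) = 0 := by
    rw [map_add, map_add, map_smul, map_smul, map_smul, hP', hQ', hR', ← map_smul, ← map_smul,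
      ← map_smul, ← map_add, ← map_add]
    have : (X 2 : S) • sXY + (X 0 : S) • sYZ + (X 1 : S) • sZX = 0 := by
      funext j
      simp only [Pi.add_apply, Pi.smul_apply, smul_eq_mul, Pi.zero_apply, sXY, sYZ, sZX]
      ring
    rw [this, map_zero]
  have hrh : HomAt (a 0) 8 ((X 2 : S) • P + (X 0 : S) • Q + (X 1 : S) • R) :=
    homAt_add (homAt_add (homAt_X_smul hP 2) (homAt_X_smul hQ 0)) (homAt_X_smul hR 1)
  have hex : ∃ v, δ 0 v = (X 2 : S) • P + (X 0 : S) • Q + (X 1 : S) • R := by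
    have : (X 2 : S) • P + (X 0 : S) • Q + (X 1 : S) • R ∈ LinearMap.ker ε := hr0
    rw [hker0] at this
    exact this
  obtain ⟨q, hq, hq'⟩ := exists_hom_preimage (δ 0) (hδ 0) 8 _ hrh hex
  have hf : ∀ i, ∃ f : Fin 3 → S, q i = X 0 * f 0 + X 1 * f 1 + X 2 * f 2 := by
    intro i
    rcases hq i with h0 | ⟨e, he, hh⟩
    · exact ⟨0, by simp [h0]⟩
    · have h1 := hgen 1 i
      refine exists_of_hom_pos ?_ hh
      have he' : a 1 i + (e : ℤ) = 8 := he
      push_cast at h1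
      omega
  choose f hf using hf
  have hq2 : q = (X 0 : S) • (fun i => f i 0) + (X 1 : S) • (fun i => f i 1) +
      (X 2 : S) • (fun i => f i 2) := by
    funext i
    simp only [Pi.add_apply, Pi.smul_apply, smul_eq_mul]
    exact hf i
  rw [hq2, map_add, map_add, map_smul, map_smul, map_smul] at hq'
  set A0 := δ 0 (fun i => f i 0)
  set A1 := δ 0 (fun i => f i 1)
  set A2 := δ 0 (fun i => f i 2) with hA2
  have hco : ∀ i, ∃ α β : S, P i - A2 i = X 0 * α + X 1 * β := by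
    intro i
    refine koszul_one (P i - A2 i) (Q i - A0 i) (R i - A1 i) ?_
    have := congrFun hq' i
    simp only [Pi.add_apply, Pi.smul_apply, smul_eq_mul] at this
    linear_combination -this
  choose α β hαβ using hco
  have hPA : P - A2 = (X 0 : S) • α + (X 1 : S) • β := by
    funext i
    simp only [Pi.add_apply, Pi.sub_apply, Pi.smul_apply, smul_eq_mul]
    exact hαβ i
  have hεA : ε A2 = 0 := by
    have : A2 ∈ LinearMap.ker ε := by
      rw [hker0]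
      exact ⟨_, rfl⟩
    exact this
  have h1 : sg sXY = (X 0 : S) • ε α + (X 1 : S) • ε β := by
    rw [← map_smul, ← map_smul, ← map_add, ← hPA, map_sub, hεA, sub_zero, hP']
  refine not_decomp (ε α) (ε β) ?_ ?_ h1
  · rw [← hrange]; exact ⟨_, rfl⟩
  · rw [← hrange]; exact ⟨_, rfl⟩

/-- There are an `r` (namely `r = 2`) and a finite, pure, two-dimensional, hereditary simplicial
complex `Δ` in the plane with `reg (C^r) > 2 (r + 1)`. -/
theorem result : ∃ (r : ℕ) (Δ : Geometry.SimplicialComplex ℝ (ℝ × ℝ)), IsPlanarComplex Δ ∧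
    ¬ RegLE (splines Δ r) (2 * (r + 1)) := by
  refine ⟨2, Δ, planar, fun h => main ?_⟩
  norm_num at h
  exact h

end Module

end Pool.Agent.Results.MP_75549a_ag.SplineRegularity
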